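import Pool.Agent.U307.RAD.Stm

/-!
# Project RAD, package EN (helper94): the second energy of the kernel
-/

set_option autoImplicit false

namespace Pool.Agent.U94.RAD.EN

open Pool.Agent.U307.RAD MeasureTheory Finset

/-- rising factorial -/
noncomputable def P (a : ℝ) (n : ℕ) : ℝ := ∏ h ∈ range n, (a + h)

lemma P_pos {a : ℝ} (ha : 0 < a) (n : ℕ) : 0 < P a n := prod_pos fun _ _ => by positivity

lemma P_shift (a : ℝ) (n : ℕ) : P a n * (a + n) = a * P (a + 1) n := by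
  have h1 : ∏ h ∈ range (n + 1), (a + (h : ℝ)) = P a n * (a + n) := by rw [prod_range_succ]; rfl
  have h2 : ∏ h ∈ range (n + 1), (a + (h : ℝ)) = a * P (a + 1) n := by
    rw [prod_range_succ', P, mul_comm]
    congr 1
    · simp
    · refine prod_congr rfl fun i _ => ?_
      push_cast
      ring
  rw [← h1, h2]

lemma num_fact (n : ℕ) : ∏ i ∈ range n, ((n : ℝ) - i) = (n.factorial : ℝ) := by
  rw [← prod_range_reflect, ← prod_range_add_one_eq_factorial]
  push_cast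
  refine prod_congr rfl fun j hj => ?_
  have := mem_range.1 hj
  rw [Nat.cast_sub (by omega), Nat.cast_sub (by omega)]
  push_cast
  ring

lemma num_fact' (n : ℕ) : ∏ i ∈ range n, (((n + 1 : ℕ) : ℝ) - i) = ((n + 1).factorial : ℝ) := by
  have h := num_fact (n + 1)
  rw [prod_range_succ] at h
  rw [← h]
  push_cast
  ring

lemma Mm_n (n l : ℕ) : Mm n l n = (n.factorial : ℝ) / P ((n : ℝ) + l + 1) n := by
  rw [Mm, prod_div_distrib, num_fact, P]

lemma Mm_n1 (n l : ℕ) : Mm n l (n + 1) = ((n + 1).factorial : ℝ) / P ((n : ℝ) + l + 1 + 1) n := by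
  rw [Mm, prod_div_distrib, num_fact', P]
  congr 1
  refine prod_congr rfl fun i _ => ?_
  push_cast
  ring

lemma Mm_zero {n l j : ℕ} (h : j < n) : Mm n l j = 0 := by
  rw [Mm]
  refine prod_eq_zero (mem_range.2 h) ?_
  rw [sub_self, zero_div]

lemma Cc_last (m l : ℕ) : Cc (m + 1) l m = P ((m : ℝ) + 1 + l) (m + 1) / (m.factorial : ℝ) := by
  rw [Cc, P]
  have e : m + 1 - 1 - m = 0 := by omega
  rw [e, pow_zero, one_mul, Nat.factorial_zero, Nat.cast_one, mul_one]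
  congr 1
  refine prod_congr rfl fun i _ => ?_
  ring

lemma Cc_prev (m l : ℕ) : Cc (m + 2) l m = - P ((m : ℝ) + 1 + l) (m + 2) / (m.factorial : ℝ) := by
  rw [Cc, P]
  have e : m + 2 - 1 - m = 1 := by omega
  rw [e, pow_one, Nat.factorial_one, Nat.cast_one, mul_one, neg_one_mul]
  congr 2
  refine prod_congr rfl fun i _ => ?_
  ring

lemma cont_qq (n l : ℕ) : Continuous (qq n l) := by
  unfold qq uu
  fun_prop

/-- the integral as a sum -/
lemma as_sum (hM : S_MOM) (n l : ℕ) (hn : 1 ≤ n) :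
    ∫ r in (0 : ℝ)..1, uu n l r ^ 2 * r * (1 - r ^ 2) ^ 2 =
      ∑ j ∈ range n, 2 * Cc n l j * (2 * Mm n l (j + 1) - Mm n l (j + 2) - Mm n l j) := by
  obtain ⟨h, -⟩ := hM n l hn
  have hint : ∀ j, IntervalIntegrable (fun r : ℝ => qq n l r * r ^ (l + 2 * j)) volume 0 1 := fun j =>
    ((cont_qq n l).mul (by fun_prop)).intervalIntegrable _ _
  have e : ∀ r : ℝ, uu n l r ^ 2 * r * (1 - r ^ 2) ^ 2 =
      ∑ j ∈ range n, 2 * Cc n l j * (qq n l r * r ^ (l + 2 * j) - 2 * (qq n l r * r ^ (l + 2 * (j + 1))) +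
        qq n l r * r ^ (l + 2 * (j + 2))) := by
    intro r
    have e1 : uu n l r ^ 2 * r * (1 - r ^ 2) ^ 2 = uu n l r * (qq n l r * (1 - r ^ 2) ^ 2) := by
      rw [qq]
      ring
    rw [e1]
    conv_lhs => rw [uu]
    rw [mul_sum, sum_mul]
    refine sum_congr rfl fun j _ => ?_
    ring
  simp_rw [e]
  rw [intervalIntegral.integral_finsetSum]
  · refine sum_congr rfl fun j _ => ?_
    rw [intervalIntegral.integral_const_mul, intervalIntegral.integral_add, intervalIntegral.integral_sub,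
      intervalIntegral.integral_const_mul, h j, h (j + 1), h (j + 2)]
    · ring
    · exact hint j
    · exact (hint (j + 1)).const_mul 2
    · exact (hint j).sub ((hint (j + 1)).const_mul 2)
    · exact hint (j + 2)
  · intro j _
    exact (((hint j).sub ((hint (j + 1)).const_mul 2)).add (hint (j + 2))).const_mul _

lemma last_term (m l : ℕ) : Cc (m + 1) l m * Mm (m + 1) l (m + 1) =
    ((m + 1 : ℕ) : ℝ) * ((m + 1 : ℕ) + l) / (2 * (m + 1 : ℕ) + l) := by
  rw [Cc_last, Mm_n]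
  have h := P_shift ((m : ℝ) + 1 + l) (m + 1)
  have hp : 0 < P ((m : ℝ) + 1 + l + 1) (m + 1) := P_pos (by positivity) _
  have hf : (0 : ℝ) < m.factorial := by exact_mod_cast m.factorial_pos
  rw [Nat.factorial_succ]
  push_cast at h ⊢
  have h2 : (0 : ℝ) < 2 * ((m : ℝ) + 1) + l := by positivity
  rw [div_mul_div_comm, div_eq_div_iff (by positivity) h2.ne']
  linear_combination ((m : ℝ) + 1) * m.factorial * h

lemma next_term (m l : ℕ) : Mm (m + 1) l (m + 2) =
    Mm (m + 1) l (m + 1) * (((m + 2 : ℕ) : ℝ) * ((m + 2 : ℕ) + l) / (2 * (m + 1 : ℕ) + l + 1)) := by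
  rw [Mm_n, Mm_n1]
  have h := P_shift ((m : ℝ) + 1 + l + 1) (m + 1)
  have hp : 0 < P ((m : ℝ) + 1 + l + 1) (m + 1) := P_pos (by positivity) _
  have hp2 : 0 < P ((m : ℝ) + 1 + l + 1 + 1) (m + 1) := P_pos (by positivity) _
  rw [Nat.factorial_succ (m + 1)]
  push_cast at h ⊢
  have h2 : (0 : ℝ) < 2 * ((m : ℝ) + 1) + l + 1 := by positivity
  rw [div_mul_div_comm, div_eq_div_iff hp2.ne' (by positivity)]
  linear_combination (-((m : ℝ) + 1 + 1) * (m + 1).factorial) * (-h)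

lemma prev_term (m l : ℕ) : - (Cc (m + 2) l m * Mm (m + 2) l (m + 2)) =
    ((m + 2 : ℕ) : ℝ) * ((m + 2 : ℕ) - 1) * ((m + 2 : ℕ) + l - 1) * ((m + 2 : ℕ) + l) /
      ((2 * (m + 2 : ℕ) + l - 1) * (2 * (m + 2 : ℕ) + l)) := by
  rw [Cc_prev, Mm_n]
  have h := P_shift ((m : ℝ) + 1 + l) (m + 2)
  have h' := P_shift ((m : ℝ) + 1 + l + 1) (m + 2)
  have e1 : (m : ℝ) + 1 + l + 1 + 1 = ((m + 2 : ℕ) : ℝ) + l + 1 := by push_cast; ring
  rw [e1] at h'
  have hp : 0 < P (((m + 2 : ℕ) : ℝ) + l + 1) (m + 2) := P_pos (by positivity) _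
  have hf : (0 : ℝ) < m.factorial := by exact_mod_cast m.factorial_pos
  rw [Nat.factorial_succ (m + 1), Nat.factorial_succ m]
  push_cast at h h' hp ⊢
  have h2 : (0 : ℝ) < 2 * ((m : ℝ) + 2) + l := by positivity
  have h3 : (0 : ℝ) < 2 * ((m : ℝ) + 2) + l - 1 := by
    have : (0 : ℝ) ≤ m := Nat.cast_nonneg _
    have : (0 : ℝ) ≤ l := Nat.cast_nonneg _
    linarith
  rw [neg_div, neg_mul, neg_neg, div_mul_div_comm, div_eq_div_iff (by positivity) (by positivity)]
  linear_combination (((m : ℝ) + 2) * (m + 1) * m.factorial * (2 * ((m : ℝ) + 2) + l)) * h +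
    (((m : ℝ) + 2) * (m + 1) * m.factorial * (m + 1 + l)) * h'

theorem t_EN : S_PF → S_MOM → S_EN := by
  intro _ hM n l hn
  rw [as_sum hM n l hn]
  have hl : (0 : ℝ) ≤ l := Nat.cast_nonneg _
  rcases n with _ | _ | m
  · omega
  · have h0 := last_term 0 l
    have h1 := next_term 0 l
    rw [zero_add, sum_range_one, zero_add, Mm_zero (by omega : 0 < 1), sub_zero]
    rw [zero_add] at h0 h1
    rw [zero_add] at h1
    rw [h1]
    push_cast at h0 ⊢
    have e : 2 * Cc 1 l 0 * (2 * Mm 1 l 1 - Mm 1 l 1 * (2 * (2 + (l : ℝ)) / (2 * 1 + l + 1))) =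
        2 * (Cc 1 l 0 * Mm 1 l 1) * (2 - 2 * (2 + (l : ℝ)) / (2 * 1 + l + 1)) := by ring
    rw [e, h0]
    have h2 : (2 : ℝ) * 1 + l ≠ 0 := by positivity
    have h3 : (2 : ℝ) * 1 + l + 1 ≠ 0 := by positivity
    have h4 : ((2 : ℝ) * 1 + l) ^ 2 - 1 = (1 + l) * (2 * 1 + l + 1) := by ring
    have h5 : (1 : ℝ) + l ≠ 0 := by positivity
    rw [h4]
    field_simp
    ring
  · have hm : (0 : ℝ) ≤ m := Nat.cast_nonneg _
    rw [sum_range_succ, sum_range_succ, sum_eq_zero fun j hj => ?_]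
    swap
    · have := mem_range.1 hj
      rw [Mm_zero (by omega : j < m + 1 + 1), Mm_zero (by omega : j + 1 < m + 1 + 1),
        Mm_zero (by omega : j + 2 < m + 1 + 1)]
      ring
    rw [Mm_zero (by omega : m < m + 1 + 1), Mm_zero (by omega : m + 1 < m + 1 + 1)]
    have h0 := last_term (m + 1) l
    have h1 := next_term (m + 1) l
    have h2 := prev_term m l
    have e1 : m + 1 + 1 = m + 2 := rfl
    have e2 : m + 1 + 2 = m + 3 := rfl
    rw [e1] at h0 h1 ⊢
    rw [h1]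
    push_cast at h0 h2 ⊢
    set C1 := Cc (m + 2) l (m + 1)
    set C0 := Cc (m + 2) l m
    set M := Mm (m + 2) l (m + 2)
    have e3 : 0 + 2 * C0 * (2 * 0 - M - 0) +
        2 * C1 * (2 * M - M * (((m : ℝ) + 1 + 2) * (m + 1 + 2 + l) / (2 * (m + 2) + l + 1)) - 0) =
        2 * (-(C0 * M)) + 2 * (C1 * M) * (2 - ((m : ℝ) + 1 + 2) * (m + 1 + 2 + l) / (2 * (m + 2) + l + 1)) := by
      ring
    rw [e3, h0, h2]
    have g1 : (2 : ℝ) * (m + 2) + l - 1 ≠ 0 := by nlinarith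
    have g2 : (2 : ℝ) * (m + 2) + l ≠ 0 := by positivity
    have g3 : (2 : ℝ) * (m + 2) + l + 1 ≠ 0 := by positivity
    have g5 : ((2 : ℝ) * (m + 2) + l) ^ 2 - 1 = (2 * (m + 2) + l - 1) * (2 * (m + 2) + l + 1) := by ring
    rw [g5]
    field_simp
    ring

end Pool.Agent.U94.RAD.EN
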