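import Pool.Agent.U307.RAD.Stm3

/-!
# Project RAD, package TR: partial fractions
-/

set_option autoImplicit false

namespace Pool.Agent.U94.RAD.TR

open Pool.Agent.U307.RAD Finset Polynomial

lemma prod_lt (i : ℕ) : ∏ h ∈ range i, ((h : ℂ) - i) = (-1) ^ i * (i.factorial : ℂ) := by
  have h1 : ∏ h ∈ range i, ((i : ℂ) - h) = (i.factorial : ℂ) := by
    rw [← Finset.prod_range_add_one_eq_factorial, ← Finset.prod_range_reflect, Nat.cast_prod]
    refine prod_congr rfl fun h hh => ?_
    have := mem_range.1 hh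
    rw [Nat.cast_add, Nat.cast_sub (by omega), Nat.cast_sub (by omega)]
    push_cast
    ring
  rw [← h1]
  have h2 : ((-1 : ℂ)) ^ i = ∏ _h ∈ range i, (-1 : ℂ) := by
    rw [prod_const, card_range]
  rw [h2, ← prod_mul_distrib]
  refine prod_congr rfl fun h _ => ?_
  ring

lemma prod_erase' (i m : ℕ) : ∏ h ∈ (range (i + 1 + m)).erase i, ((h : ℂ) - i) =
    (-1) ^ i * ((i.factorial : ℂ) * (m.factorial : ℂ)) := by
  induction m with
  | zero =>
    rw [add_zero, range_add_one, erase_insert notMem_range_self, prod_lt]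
    simp
  | succ m ih =>
    have h1 : i + 1 + (m + 1) = (i + 1 + m) + 1 := by ring
    rw [h1, range_add_one, erase_insert_of_ne (by omega), prod_insert (by simp), ih,
      Nat.factorial_succ]
    push_cast
    ring

lemma prod_erase {i n : ℕ} (h : i ≤ n) : ∏ h ∈ (range (n + 1)).erase i, ((h : ℂ) - i) =
    (-1) ^ i * ((i.factorial : ℂ) * ((n - i).factorial : ℂ)) := by
  have h1 : n + 1 = i + 1 + (n - i) := by omega
  have h2 := prod_erase' i (n - i)
  rwa [← h1] at h2

/-- the nodes -/
noncomputable def v (l i : ℕ) : ℂ := -((l : ℂ) / 2 + i)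

lemma v_inj (l : ℕ) : Function.Injective (v l) := by
  intro a b h
  unfold v at h
  have : (a : ℂ) = b := by linear_combination -h
  exact_mod_cast this

/-- the numerator -/
noncomputable def N (n l : ℕ) : ℂ[X] := ∏ i ∈ range n, (X - C ((l : ℂ) / 2 + 1 + i))

lemma degree_lt (n l : ℕ) : (N n l).degree < (#(range (n + 1)) : ℕ) := by
  have h2 : (N n l).Monic := monic_prod_of_monic _ _ fun i _ => monic_X_sub_C _
  have h4 : (N n l).natDegree = n := by
    unfold N
    rw [natDegree_finsetProd_X_sub_C_eq_card, card_range]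
  rw [degree_eq_natDegree h2.ne_zero, h4, card_range]
  exact_mod_cast Nat.lt_succ_self n

lemma asc (n l i : ℕ) : ∏ h ∈ range n, ((l : ℂ) + 1 + i + h) =
    ((n + l + i).factorial : ℂ) / ((l + i).factorial : ℂ) := by
  have h1 : ((l + i).factorial : ℂ) ≠ 0 := by exact_mod_cast Nat.factorial_ne_zero _
  have h2 : ∏ h ∈ range n, ((l : ℂ) + 1 + i + h) = (((l + i + 1).ascFactorial n : ℕ) : ℂ) := by
    rw [Nat.ascFactorial_eq_prod_range, Nat.cast_prod]
    refine prod_congr rfl fun h _ => ?_
    push_cast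
    ring
  have h3 := Nat.factorial_mul_ascFactorial (l + i) n
  have h4 : l + i + n = n + l + i := by ring
  rw [h4] at h3
  rw [h2, eq_div_iff h1, ← h3]
  push_cast
  ring

lemma eval_node {n i : ℕ} (l : ℕ) :
    (N n l).eval (v l i) = (-1) ^ n * (((n + l + i).factorial : ℂ) / ((l + i).factorial : ℂ)) := by
  unfold N
  have h3 : ((-1 : ℂ)) ^ n = ∏ _h ∈ range n, (-1 : ℂ) := by
    rw [prod_const, card_range]
  rw [← asc, eval_prod, h3, ← prod_mul_distrib]
  refine prod_congr rfl fun h _ => ?_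
  rw [eval_sub, eval_X, eval_C, v]
  ring

lemma key (n l : ℕ) : N n l =
    ∑ i ∈ range (n + 1), C ((aa n l i : ℝ) : ℂ) * ∏ h ∈ (range (n + 1)).erase i, (X - C (v l h)) := by
  have h1 := Lagrange.eq_interpolate_of_eval_eq
    (r := fun i => (-1) ^ n * (((n + l + i).factorial : ℂ) / ((l + i).factorial : ℂ)))
    (s := range (n + 1)) (v := v l)
    (v_inj l).injOn (degree_lt n l) (fun i _ => eval_node l)
  rw [h1, Lagrange.interpolate_apply]
  refine sum_congr rfl fun i hi => ?_
  have hi' := mem_range.1 hi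
  unfold Lagrange.basis Lagrange.basisDivisor
  rw [prod_mul_distrib, ← mul_assoc]
  congr 1
  rw [← map_prod C, ← C_mul]
  congr 1
  rw [prod_inv_distrib]
  have h2 : ∏ h ∈ (range (n + 1)).erase i, (v l i - v l h) =
      (-1) ^ i * ((i.factorial : ℂ) * ((n - i).factorial : ℂ)) := by
    rw [← prod_erase (by omega)]
    refine prod_congr rfl fun h _ => ?_
    unfold v
    ring
  rw [h2]
  unfold aa
  have h3 : (-1 : ℂ) ^ n = (-1) ^ i * (-1) ^ (n - i) := by
    rw [← pow_add]
    congr 1
    omega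
  have h5 : ((-1 : ℂ) ^ i) ≠ 0 := pow_ne_zero _ (by norm_num)
  have h6 : (i.factorial : ℂ) ≠ 0 := by exact_mod_cast Nat.factorial_ne_zero _
  have h7 : ((n - i).factorial : ℂ) ≠ 0 := by exact_mod_cast Nat.factorial_ne_zero _
  have h8 : ((l + i).factorial : ℂ) ≠ 0 := by exact_mod_cast Nat.factorial_ne_zero _
  rw [h3]
  push_cast
  field_simp

/-- **package TR** -/
theorem t_TR : S_TR := by
  intro n l z hz
  have h1 := congrArg (fun q : ℂ[X] => q.eval z) (key n l)
  simp only [eval_finsetSum, eval_mul, eval_C, eval_prod, eval_sub, eval_X] at h1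
  have hN : (N n l).eval z = ∏ i ∈ range n, (z - (l : ℂ) / 2 - 1 - i) := by
    unfold N
    rw [eval_prod]
    refine prod_congr rfl fun i _ => ?_
    rw [eval_sub, eval_X, eval_C]
    ring
  rw [← hN, h1, sum_div]
  refine sum_congr rfl fun i hi => ?_
  have h3 : ∏ i ∈ range (n + 1), (z + (l : ℂ) / 2 + i) =
      (z + (l : ℂ) / 2 + i) * ∏ h ∈ (range (n + 1)).erase i, (z - v l h) := by
    rw [← mul_prod_erase _ _ hi]
    congr 1
    refine prod_congr rfl fun h _ => ?_
    unfold v
    ring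
  have h4 : ∏ h ∈ (range (n + 1)).erase i, (z - v l h) ≠ 0 := by
    refine prod_ne_zero_iff.2 fun h hh => ?_
    have : z - v l h = z + (l : ℂ) / 2 + h := by unfold v; ring
    rw [this]
    exact hz h (mem_of_mem_erase hh)
  have h5 := hz i hi
  rw [h3]
  field_simp

end Pool.Agent.U94.RAD.TR
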